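import Pool.Agent.Lib.MP_29e7a7_co.OC.Main

/-!
# Path partitions with surplus `(a 1 - 1) / 3`: two arms at a vertex, peeling without a cycle bound
-/

set_option autoImplicit false

namespace Pool.Agent.Lib.MP_29e7a7_co.OT

open Pool.Agent.Lib.MP_29e7a7_co.PP Pool.Agent.Lib.MP_29e7a7_co.OC

variable {V : Type} {G : SimpleGraph V}

/-- gluing two paths at a common end -/
theorem glue {l₁ l₂ : List V} {c : V} (h1 : IsP G (l₁ ++ [c])) (h2 : IsP G (c :: l₂))
    (hd : List.Disjoint l₁ l₂) : IsP G (l₁ ++ c :: l₂) := isP_split.mpr ⟨h1, h2, hd⟩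

theorem rev_end {l : List V} {v : V} (h : IsP G (v :: l)) : IsP G (l.reverse ++ [v]) := by
  have := h.reverse
  simpa using this

/-- two disjoint arms in the maximal set at a vertex outside -/
theorem extend2 [DecidableEq V] {A : Finset V} {a : ℕ} {v : V} (hA : Det G A a)
    (hv : ¬ Det G (insert v A) a) :
    ∃ l l', IsP G (v :: l) ∧ IsP G (v :: l') ∧ List.Disjoint l l' ∧ (∀ x ∈ l, x ∈ A) ∧
      (∀ x ∈ l', x ∈ A) ∧ a ≤ l.length + l'.length := by
  unfold Det at hv
  push Not at hv
  obtain ⟨p, hp, hpA, hlen⟩ := hv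
  have hvp : v ∈ p := by
    by_contra hvp
    refine absurd (hA p hp ?_) (by omega)
    intro x hx
    rcases Finset.mem_insert.mp (hpA x hx) with rfl | h
    · exact absurd hx hvp
    · exact h
  obtain ⟨l₁, l₂, rfl⟩ := List.append_of_mem hvp
  have hs := isP_split.mp hp
  have hn := hp.1
  have hmem : ∀ x ∈ l₁ ++ l₂, x ∈ A := by
    intro x hx
    have hxv : x ≠ v := by
      rintro rfl
      have : (x :: (l₁ ++ l₂)).Nodup := (List.perm_middle.nodup_iff).mp hn
      exact (List.nodup_cons.mp this).1 hx
    have : x ∈ l₁ ++ v :: l₂ := by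
      rcases List.mem_append.mp hx with h | h
      · exact List.mem_append_left _ h
      · exact List.mem_append_right _ (List.mem_cons_of_mem _ h)
    rcases Finset.mem_insert.mp (hpA x this) with h | h
    · exact absurd h hxv
    · exact h
  refine ⟨l₁.reverse, l₂, ?_, hs.2.1, ?_, ?_, ?_, ?_⟩
  · have := hs.1.reverse
    simpa using this
  · intro x hx hx2
    exact hs.2.2 (List.mem_reverse.mp hx) hx2
  · intro x hx
    exact hmem x (List.mem_append_left _ (List.mem_reverse.mp hx))
  · intro x hx
    exact hmem x (List.mem_append_right _ hx)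
  · rw [List.length_reverse]
    have : (l₁ ++ v :: l₂).length = l₁.length + l₂.length + 1 := by
      simp only [List.length_append, List.length_cons]; omega
    omega

/-- the arms property of a set `A` in `S` -/
def Arms (G : SimpleGraph V) (S A : Finset V) (a : ℕ) : Prop :=
  ∀ v ∈ S, v ∉ A → ∃ l l', IsP G (v :: l) ∧ IsP G (v :: l') ∧ List.Disjoint l l' ∧
    (∀ x ∈ l, x ∈ A) ∧ (∀ x ∈ l', x ∈ A) ∧ a ≤ l.length + l'.length

theorem exists_max2 [DecidableEq V] (S : Finset V) (a : ℕ) :
    ∃ A ⊆ S, Det G A a ∧ Arms G S A a := by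
  classical
  obtain ⟨A, hA, hmax⟩ := Finset.exists_max_image (S.powerset.filter (fun A => Det G A a))
    Finset.card ⟨∅, by
      rw [Finset.mem_filter]
      refine ⟨Finset.empty_mem_powerset _, ?_⟩
      intro l _ hl
      rcases l with _ | ⟨x, l⟩
      · simp
      · exact absurd (hl x (by simp)) (Finset.notMem_empty _)⟩
  rw [Finset.mem_filter, Finset.mem_powerset] at hA
  refine ⟨A, hA.1, hA.2, ?_⟩
  intro v hv hvA
  refine extend2 hA.2 ?_
  intro hcon
  have := hmax (insert v A) (by
    rw [Finset.mem_filter, Finset.mem_powerset]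
    exact ⟨Finset.insert_subset hv hA.1, hcon⟩)
  rw [Finset.card_insert_of_notMem hvA] at this
  omega

theorem Arms.one {S A : Finset V} {a : ℕ} (h : Arms G S A a) :
    ∀ v ∈ S, v ∉ A → ∃ l, IsP G (v :: l) ∧ (∀ x ∈ l, x ∈ A) ∧ a ≤ 2 * l.length := by
  intro v hv hvA
  obtain ⟨l, l', h1, h2, _, h4, h5, h6⟩ := h v hv hvA
  by_cases hc : l'.length ≤ l.length
  · exact ⟨l, h1, h4, by omega⟩
  · exact ⟨l', h2, h5, by omega⟩

/-- a path outside `A` with arms at both ends and the three possibilities to combine them.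
`l`, `l'` are the arms at `v`, `m` is an arm at the other end `w` that meets `l` first. -/
theorem third_aux {S A : Finset V} {N : ℕ} {v w : V} {t l' m₁ m₂ n₁ n₂ : List V} {z : V}
    (hAS : A ⊆ S) (hS : Det G S N) (hQ : IsP G (v :: t)) (hQS : ∀ x ∈ v :: t, x ∈ S ∧ x ∉ A)
    (hw : (v :: t).getLast? = some w) (hl : IsP G (v :: (n₁ ++ z :: n₂))) (hl' : IsP G (v :: l'))
    (hd : List.Disjoint (n₁ ++ z :: n₂) l') (hlA : ∀ x ∈ n₁ ++ z :: n₂, x ∈ A)
    (hlA' : ∀ x ∈ l', x ∈ A) (hm : IsP G (w :: (m₁ ++ z :: m₂)))
    (hmA : ∀ x ∈ m₁ ++ z :: m₂, x ∈ A)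
    (hm1 : ∀ x ∈ m₁, x ∉ n₁ ++ z :: n₂ ∧ x ∉ l') :
    l'.length + (t.length + 1) + m₁.length + 1 + n₂.length ≤ N ∧
    l'.length + (t.length + 1) + m₁.length + 1 + n₁.length ≤ N ∧
    (n₁.length + 1 + n₂.length) + (t.length + 1) + m₁.length ≤ N := by
  have hd1 : List.Disjoint l' (v :: t) := fun x hx hx2 => (hQS x hx2).2 (hlA' x hx)
  have hd2 : List.Disjoint (n₁ ++ z :: n₂) (v :: t) := fun x hx hx2 => (hQS x hx2).2 (hlA x hx)
  have hsl : IsP G ((v :: n₁) ++ z :: n₂) := hl
  have hsl' := isP_split.mp hsl
  have hsm : IsP G ((w :: m₁) ++ z :: m₂) := hm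
  have hsm' := isP_split.mp hsm
  -- the arm at `w` followed by a piece `u` of the arm at `v`
  have key : ∀ u : List V, IsP G (z :: u) → (∀ x ∈ u, x ∈ n₁ ++ z :: n₂) →
      l'.length + (t.length + 1) + m₁.length + 1 + u.length ≤ N := by
    intro u hu huA
    have hnew : IsP G (w :: (m₁ ++ z :: u)) := by
      have : IsP G ((w :: m₁) ++ z :: u) := by
        refine glue hsm'.1 hu ?_
        intro x hx hx2
        rcases List.mem_cons.mp hx with rfl | hx
        · exact (hQS x (List.mem_of_getLast? hw)).2 (hlA x (huA x hx2))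
        · exact (hm1 x hx).1 (huA x hx2)
      exact this
    have hP := isP_two (l := l') (l' := m₁ ++ z :: u) hl' hQ hnew hw hd1 (by
        intro x hx hx2
        refine (hQS x hx).2 ?_
        rcases List.mem_append.mp hx2 with h | h
        · exact hmA x (List.mem_append_left _ h)
        · rcases List.mem_cons.mp h with rfl | h
          · exact hmA x (by simp)
          · exact hlA x (huA x h)) (by
        intro x hx hx2
        rcases List.mem_append.mp hx2 with h | h
        · exact (hm1 x h).2 hx
        · rcases List.mem_cons.mp h with rfl | h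
          · exact hd (by simp) hx
          · exact hd (huA x h) hx)
    have := hS _ hP (by
      intro x hx
      rcases List.mem_append.mp hx with h | h
      · exact hAS (hlA' x (List.mem_reverse.mp h))
      · have h' : x ∈ (v :: t) ++ (m₁ ++ z :: u) := h
        rcases List.mem_append.mp h' with h | h
        · exact (hQS x h).1
        · rcases List.mem_append.mp h with h | h
          · exact hAS (hmA x (List.mem_append_left _ h))
          · rcases List.mem_cons.mp h with rfl | h
            · exact hAS (hmA x (by simp))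
            · exact hAS (hlA x (huA x h)))
    simp only [List.length_append, List.length_reverse, List.length_cons] at this
    omega
  refine ⟨key n₂ hsl'.2.1 (fun x hx => List.mem_append_right _ (List.mem_cons_of_mem _ hx)), ?_, ?_⟩
  · have h1 : IsP G (z :: n₁.reverse) := by
      have h2 := hsl'.1.reverse
      have h3 : ((v :: n₁) ++ [z]).reverse = (z :: n₁.reverse) ++ [v] := by simp
      rw [h3] at h2
      exact h2.left
    have := key n₁.reverse h1 (fun x hx => List.mem_append_left _ (List.mem_reverse.mp hx))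
    rw [List.length_reverse] at this
    exact this
  · have hP := isP_two (l := n₁ ++ z :: n₂) (l' := m₁) hl hQ
      (by
        have : IsP G ((w :: m₁) ++ z :: m₂) := hm
        exact this.left) hw hd2 (by
        intro x hx hx2
        exact (hQS x hx).2 (hmA x (List.mem_append_left _ hx2))) (by
        intro x hx hx2
        exact (hm1 x hx2).1 hx)
    have := hS _ hP (by
      intro x hx
      rcases List.mem_append.mp hx with h | h
      · exact hAS (hlA x (List.mem_reverse.mp h))
      · have h' : x ∈ (v :: t) ++ m₁ := h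
        rcases List.mem_append.mp h' with h | h
        · exact (hQS x h).1
        · exact hAS (hmA x (List.mem_append_left _ h)))
    simp only [List.length_append, List.length_reverse, List.length_cons] at this
    omega

/-- peeling off a maximal set loses at most a third -/
theorem peel_third [DecidableEq V] {A S : Finset V} {a T : ℕ} (hAS : A ⊆ S)
    (hS : Det G S (T + a)) (harm : Arms G S A a) : Det G (S \ A) (T + (a - 1) / 3) := by
  intro Q hQ hQS
  rcases Q with _ | ⟨v, t⟩
  · simp
  obtain ⟨w, hw⟩ : ∃ w, (v :: t).getLast? = some w := by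
    rcases h : (v :: t).getLast? with _ | w
    · rw [List.getLast?_eq_none_iff] at h
      exact absurd h (by simp)
    · exact ⟨w, rfl⟩
  have hwm : w ∈ v :: t := List.mem_of_getLast? hw
  have hmS : ∀ x ∈ v :: t, x ∈ S ∧ x ∉ A := fun x hx => Finset.mem_sdiff.mp (hQS x hx)
  obtain ⟨l, l', hl, hl', hd, hlA, hlA', hlen⟩ := harm v (hmS v (by simp)).1 (hmS v (by simp)).2
  -- the first arm is the longer one
  wlog hc : l'.length ≤ l.length generalizing l l'
  · exact this l' l hl' hl (fun x hx hx2 => hd hx2 hx) hlA' hlA (by omega) (by omega)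
  obtain ⟨m, hm, hmA, hm2⟩ := harm.one w (hmS w hwm).1 (hmS w hwm).2
  have hd1 : List.Disjoint l (v :: t) := fun x hx hx2 => (hmS x hx2).2 (hlA x hx)
  have hd2 : List.Disjoint (v :: t) m := fun x hx hx2 => (hmS x hx).2 (hmA x hx2)
  rw [List.length_cons]
  by_cases hint : ∃ x ∈ m, x ∈ l ∨ x ∈ l'
  · obtain ⟨m₁, z, m₂, rfl, hz, hm1⟩ := exists_first (fun x => x ∈ l ∨ x ∈ l') m hint
    rcases hz with hz | hz
    · obtain ⟨n₁, n₂, rfl⟩ := List.append_of_mem hz
      obtain ⟨h1, h2, h3⟩ := third_aux hAS hS hQ hmS hw hl hl' hd hlA hlA' hm hmA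
        (fun x hx => not_or.mp (hm1 x hx))
      simp only [List.length_append, List.length_cons] at hlen hc
      omega
    · obtain ⟨n₁, n₂, rfl⟩ := List.append_of_mem hz
      obtain ⟨h1, h2, h3⟩ := third_aux hAS hS hQ hmS hw hl' hl (fun x hx hx2 => hd hx2 hx)
        hlA' hlA hm hmA (fun x hx => (not_or.mp (hm1 x hx)).symm)
      simp only [List.length_append, List.length_cons] at hlen hc
      omega
  · push Not at hint
    have hP := isP_two hl hQ hm hw hd1 hd2 (fun x hx hx2 => (hint x hx2).1 hx)
    have := hS _ hP (by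
      intro x hx
      rcases List.mem_append.mp hx with h | h
      · exact hAS (hlA x (List.mem_reverse.mp h))
      · have h' : x ∈ (v :: t) ++ m := h
        rcases List.mem_append.mp h' with h | h
        · exact (hmS x h).1
        · exact hAS (hmA x h))
    simp only [List.length_append, List.length_reverse, List.length_cons] at this
    omega

end Pool.Agent.Lib.MP_29e7a7_co.OT
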