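import Pool.Agent.Lib.MP_29e7a7_co.OT.Arms

/-!
# Path partitions with surplus `(a 1 - 1) / 3`: arcs without bad vertices on a longest cycle
-/

set_option autoImplicit false

namespace Pool.Agent.Lib.MP_29e7a7_co.OT

open Pool.Agent.Lib.MP_29e7a7_co.PP Pool.Agent.Lib.MP_29e7a7_co.OC

variable {V : Type} {G : SimpleGraph V}

/-- two paths between the same ends form a cycle -/
theorem cyc_glue {t r : List V} {v w : V} (h1 : IsP G (v :: (t ++ [w])))
    (h2 : IsP G (w :: (r ++ [v]))) (hd : List.Disjoint t r) : IsCyc G (v :: (t ++ w :: r)) := by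
  refine ⟨?_, v, t ++ w :: r, rfl, ?_⟩
  · have h3 : IsP G ((v :: t) ++ w :: r) := by
      refine glue h1 (IsP.left (l' := [v]) h2) ?_
      intro x hx hx2
      rcases List.mem_cons.mp hx with rfl | hx
      · have h4 : IsP G ((w :: r) ++ [x]) := h2
        have h5 := (List.nodup_append.mp h4.1).2.2
        exact h5 x (List.mem_cons_of_mem _ hx2) x (List.mem_singleton_self _) rfl
      · exact hd hx hx2
    exact h3.1
  · have h6 : v :: (t ++ w :: r ++ [v]) = (v :: t) ++ w :: (r ++ [v]) := by simp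
    rw [h6, List.isChain_split]
    exact ⟨h1.2, h2.2⟩

theorem isCyc_rot1 {l : List V} {x : V} (h : IsCyc G (x :: l)) : IsCyc G (l ++ [x]) := by
  rcases l with _ | ⟨y, l⟩
  · exact h
  · have h1 : IsP G (x :: (y :: l)) := by
      have := rot_start (l₁ := []) (l₂ := y :: l) (z := x) h rfl
      simpa using this
    have h2 : IsP G ((y :: l) ++ [x]) := by
      have := rot_end (l₁ := []) (l₂ := y :: l) (z := x) h rfl
      simpa using this
    have h3 : IsP G (x :: ([] ++ [y])) := by
      have h4 : x :: (y :: l) = ([x, y]) ++ l := rfl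
      rw [h4] at h1
      exact h1.left
    have := cyc_glue (v := y) (w := x) (t := l) (r := []) h2 h3 (by
      intro z _ hz
      exact absurd hz (List.not_mem_nil))
    simpa using this

theorem isCyc_rot {l₁ : List V} : ∀ {l₂ : List V}, IsCyc G (l₁ ++ l₂) → IsCyc G (l₂ ++ l₁) := by
  induction l₁ with
  | nil => intro l₂ h; simpa using h
  | cons x l ih =>
    intro l₂ h
    have h1 : IsCyc G (x :: (l ++ l₂)) := h
    have h2 := isCyc_rot1 h1
    have h3 : IsCyc G (l ++ (l₂ ++ [x])) := by simpa using h2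
    have h4 := ih h3
    simpa using h4

/-- `x` has two disjoint arms outside `o` with at least `m` vertices together -/
def Bad (G : SimpleGraph V) (S : Finset V) (o : List V) (m : ℕ) (x : V) : Prop :=
  ∃ l l', IsP G (x :: l) ∧ IsP G (x :: l') ∧ List.Disjoint l l' ∧ (∀ v ∈ l, v ∈ S ∧ v ∉ o) ∧
    (∀ v ∈ l', v ∈ S ∧ v ∉ o) ∧ m ≤ l.length + l'.length

theorem Bad.one {S : Finset V} {o : List V} {m : ℕ} {x : V} (h : Bad G S o m x) :
    ∃ l, IsP G (x :: l) ∧ (∀ v ∈ l, v ∈ S ∧ v ∉ o) ∧ m ≤ 2 * l.length := by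
  obtain ⟨l, l', h1, h2, _, h4, h5, h6⟩ := h
  by_cases hc : l'.length ≤ l.length
  · exact ⟨l, h1, h4, by omega⟩
  · exact ⟨l', h2, h5, by omega⟩

/-- an arm is short -/
theorem arm_le {S : Finset V} {o l : List V} {x : V} {N : ℕ} (hO : IsCyc G o)
    (hoS : ∀ v ∈ o, v ∈ S) (hS : Det G S N) (hx : x ∈ o) (hl : IsP G (x :: l))
    (hlS : ∀ v ∈ l, v ∈ S ∧ v ∉ o) (hoN : o.length ≤ N) : o.length + l.length ≤ N := by
  rcases l with _ | ⟨y, l⟩
  · simpa using hoN
  · have h1 : IsP G ([x] ++ (y :: l)) := hl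
    have h2 := hl.2
    rw [List.isChain_cons_cons] at h2
    exact att hO hoS hS h1.right rfl hlS hx h2.1

theorem cyc_le {S : Finset V} {o : List V} {N : ℕ} (hO : IsCyc G o) (hoS : ∀ v ∈ o, v ∈ S)
    (hS : Det G S N) : o.length ≤ N := by
  have hO' := hO
  obtain ⟨_, x, l, rfl, _⟩ := hO
  have := rot_start (l₁ := []) (l₂ := l) (z := x) hO' rfl
  have h := hS _ this (by
    intro v hv
    apply hoS
    simpa using hv)
  simpa using h

/-- on a longest cycle two vertices with long arms are far apart -/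
theorem spacing [DecidableEq V] {S : Finset V} {x x' : V} {g₁ g₂ : List V} {N m : ℕ}
    (hO : IsCyc G (x :: (g₁ ++ x' :: g₂))) (hoS : ∀ v ∈ x :: (g₁ ++ x' :: g₂), v ∈ S)
    (hS : Det G S N)
    (hmax : ∀ q, IsCyc G q → (∀ v ∈ q, v ∈ S) → q.length ≤ (x :: (g₁ ++ x' :: g₂)).length)
    (hb : Bad G S (x :: (g₁ ++ x' :: g₂)) m x) (hb' : Bad G S (x :: (g₁ ++ x' :: g₂)) m x') :
    m + (x :: (g₁ ++ x' :: g₂)).length ≤ N + g₁.length ∨
      m + 1 + (x :: (g₁ ++ x' :: g₂)).length ≤ N + 2 * g₁.length := by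
  classical
  set o := x :: (g₁ ++ x' :: g₂) with ho
  obtain ⟨u, hu, huS, hu2⟩ := hb'.one
  obtain ⟨l, l', hl, hl', hd, hlS, hlS', hlen⟩ := hb
  -- the path from `x` backwards to `x'`
  have hend : IsP G ((g₁ ++ x' :: g₂) ++ [x]) := by
    have := rot_end (l₁ := []) (l₂ := g₁ ++ x' :: g₂) (z := x) hO rfl
    simpa using this
  have hend2 : IsP G (x' :: (g₂ ++ [x])) := by
    have h1 : (g₁ ++ x' :: g₂) ++ [x] = g₁ ++ (x' :: (g₂ ++ [x])) := by simp
    rw [h1] at hend
    exact hend.right
  have hQ : IsP G (x :: (g₂.reverse ++ [x'])) := by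
    have h1 := hend2.reverse
    have h2 : (x' :: (g₂ ++ [x])).reverse = x :: (g₂.reverse ++ [x']) := by simp
    rw [h2] at h1
    exact h1
  have hw : (x :: (g₂.reverse ++ [x'])).getLast? = some x' := by
    rw [← List.cons_append, List.getLast?_append]
    simp
  have hQo : ∀ v ∈ x :: (g₂.reverse ++ [x']), v ∈ o := by
    intro v hv
    rw [ho]
    simp only [List.mem_cons, List.mem_append, List.mem_reverse, List.not_mem_nil, or_false] at hv ⊢
    tauto
  set A := S.filter (fun v => v ∉ o) with hA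
  have hAmem : ∀ v, v ∈ A ↔ v ∈ S ∧ v ∉ o := fun v => by rw [hA, Finset.mem_filter]
  have hAS : A ⊆ S := Finset.filter_subset _ _
  have hQS : ∀ v ∈ x :: (g₂.reverse ++ [x']), v ∈ S ∧ v ∉ A := fun v hv =>
    ⟨hoS v (hQo v hv), fun h => ((hAmem v).mp h).2 (hQo v hv)⟩
  have holen : o.length = g₁.length + g₂.length + 2 := by
    rw [ho]
    simp only [List.length_cons, List.length_append]
    omega
  by_cases hint : ∃ z ∈ u, z ∈ l ∨ z ∈ l'
  · right
    -- by symmetry the first intersection is with `l`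
    have key : ∀ l l' : List V, IsP G (x :: l) → IsP G (x :: l') → List.Disjoint l l' →
        (∀ v ∈ l, v ∈ S ∧ v ∉ o) → (∀ v ∈ l', v ∈ S ∧ v ∉ o) → m ≤ l.length + l'.length →
        ∀ (m₁ m₂ : List V) (z : V), u = m₁ ++ z :: m₂ → z ∈ l →
        (∀ y ∈ m₁, y ∉ l ∧ y ∉ l') → m + 1 + o.length ≤ N + 2 * g₁.length := by
      intro l l' hl hl' hd hlS hlS' hlen m₁ m₂ z hum hz hm1
      subst hum
      obtain ⟨n₁, n₂, rfl⟩ := List.append_of_mem hz
      obtain ⟨h1, _, _⟩ := third_aux hAS hS hQ hQS hw hl hl' hd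
        (fun v hv => (hAmem v).mpr (hlS v hv)) (fun v hv => (hAmem v).mpr (hlS' v hv)) hu
        (fun v hv => (hAmem v).mpr (huS v hv)) hm1
      -- the cycle
      have hp1 : IsP G (x :: ((n₁ ++ z :: m₁.reverse) ++ [x'])) := by
        have h2 : IsP G ((x :: n₁) ++ [z]) := by
          have h3 : IsP G ((x :: n₁) ++ z :: n₂) := hl
          exact (isP_split.mp h3).1
        have h4 : IsP G (z :: (m₁.reverse ++ [x'])) := by
          have h5 : IsP G ((x' :: m₁) ++ z :: m₂) := hu
          have h6 := (isP_split.mp h5).1.reverse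
          have h7 : ((x' :: m₁) ++ [z]).reverse = z :: (m₁.reverse ++ [x']) := by simp
          rw [h7] at h6
          exact h6
        have h8 := glue h2 h4 (by
          intro y hy hy2
          have hy3 : y ∈ m₁ ∨ y = x' := by simpa using hy2
          rcases List.mem_cons.mp hy with rfl | hy
          · rcases hy3 with h | h
            · exact (huS y (List.mem_append_left _ h)).2 (by rw [ho]; simp)
            · have h9 := hO.1
              rw [List.nodup_cons] at h9
              rw [h] at h9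
              exact h9.1 (by simp)
          · rcases hy3 with h | h
            · exact (hm1 y h).1 (List.mem_append_left _ hy)
            · subst h
              exact (hlS y (List.mem_append_left _ hy)).2 (by rw [ho]; simp))
        have h10 : (x :: n₁) ++ z :: (m₁.reverse ++ [x']) =
            x :: ((n₁ ++ z :: m₁.reverse) ++ [x']) := by simp
        rw [h10] at h8
        exact h8
      have hout : ∀ v ∈ n₁ ++ z :: m₁.reverse, v ∈ S ∧ v ∉ o := by
        intro v hv
        rcases List.mem_append.mp hv with h | h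
        · exact hlS v (List.mem_append_left _ h)
        · rcases List.mem_cons.mp h with rfl | h
          · exact hlS v (by simp)
          · exact huS v (List.mem_append_left _ (List.mem_reverse.mp h))
      have hcyc := cyc_glue hp1 hend2 (by
        intro v hv hv2
        refine (hout v hv).2 ?_
        rw [ho]
        simp [hv2])
      have h11 := hmax _ hcyc (by
        intro v hv
        have hv' : v = x ∨ v ∈ n₁ ++ z :: m₁.reverse ∨ v = x' ∨ v ∈ g₂ := by
          simp only [List.mem_cons, List.mem_append] at hv ⊢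
          tauto
        rcases hv' with rfl | h | rfl | h
        · exact hoS v (by rw [ho]; simp)
        · exact (hout v h).1
        · exact hoS v (by rw [ho]; simp)
        · exact hoS v (by rw [ho]; simp [h]))
      simp only [List.length_append, List.length_cons, List.length_reverse,
        List.length_nil] at h1 h11 hlen
      omega
    obtain ⟨m₁, z, m₂, hum, hz, hm1⟩ := exists_first (fun z => z ∈ l ∨ z ∈ l') u hint
    rcases hz with hz | hz
    · exact key l l' hl hl' hd hlS hlS' hlen m₁ m₂ z hum hz (fun y hy => not_or.mp (hm1 y hy))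
    · exact key l' l hl' hl (fun v hv hv2 => hd hv2 hv) hlS' hlS (by omega) m₁ m₂ z hum hz
        (fun y hy => (not_or.mp (hm1 y hy)).symm)
  · left
    push Not at hint
    -- the longer arm at `x`
    have key : ∀ l : List V, IsP G (x :: l) → (∀ v ∈ l, v ∈ S ∧ v ∉ o) → m ≤ 2 * l.length →
        List.Disjoint l u → m + o.length ≤ N + g₁.length := by
      intro l hl hlS hl2 hdl
      have hP := isP_two hl hQ hu hw (fun v hv hv2 => (hlS v hv).2 (hQo v hv2))
        (fun v hv hv2 => (huS v hv2).2 (hQo v hv)) hdl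
      have := hS _ hP (by
        intro v hv
        rcases List.mem_append.mp hv with h | h
        · exact (hlS v (List.mem_reverse.mp h)).1
        · have h' : v ∈ (x :: (g₂.reverse ++ [x'])) ++ u := h
          rcases List.mem_append.mp h' with h | h
          · exact (hQS v h).1
          · exact (huS v h).1)
      simp only [List.length_append, List.length_reverse, List.length_cons,
        List.length_nil] at this
      omega
    by_cases hc : l'.length ≤ l.length
    · exact key l hl hlS (by omega) (fun v hv hv2 => (hint v hv2).1 hv)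
    · exact key l' hl' hlS' (by omega) (fun v hv hv2 => (hint v hv2).2 hv)

/-- a longest cycle can be rotated so that its first `δ` vertices are not bad -/
theorem good_start [DecidableEq V] {S : Finset V} {o : List V} {N m σ δ : ℕ} (hO : IsCyc G o)
    (hoS : ∀ v ∈ o, v ∈ S) (hS : Det G S N)
    (hmax : ∀ q, IsCyc G q → (∀ v ∈ q, v ∈ S) → q.length ≤ o.length)
    (hm : m ≤ 3 * σ + 3) (hδ : δ + N + σ ≤ m + o.length) (hδ1 : δ < o.length) :
    ∃ o', IsCyc G o' ∧ o'.length = o.length ∧ (∀ v, v ∈ o' ↔ v ∈ o) ∧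
      ∀ y ∈ o'.take δ, ¬ Bad G S o m y := by
  classical
  by_cases hb : ∃ x ∈ o, Bad G S o m x
  · obtain ⟨x, hx, hbx⟩ := hb
    obtain ⟨l₁, l₂, ho⟩ := List.append_of_mem hx
    have hO2 : IsCyc G ((x :: l₂) ++ l₁) := by
      rw [ho] at hO
      exact isCyc_rot hO
    have hO3 : IsCyc G ((l₂ ++ l₁) ++ [x]) := by
      have h1 : IsCyc G (x :: (l₂ ++ l₁)) := by simpa using hO2
      exact isCyc_rot1 h1
    have hlen : ((l₂ ++ l₁) ++ [x]).length = o.length := by
      rw [ho]
      simp only [List.length_append, List.length_cons, List.length_nil]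
      omega
    refine ⟨(l₂ ++ l₁) ++ [x], hO3, hlen, ?_, ?_⟩
    · intro v
      rw [ho]
      simp only [List.mem_cons, List.mem_append, List.not_mem_nil, or_false]
      tauto
    · intro y hy hby
      have hlen' : (l₂ ++ l₁).length = o.length - 1 := by
        rw [List.length_append] at hlen
        simp only [List.length_singleton] at hlen
        omega
      rw [List.take_append_of_le_length (by omega)] at hy
      obtain ⟨g₁, g₂, hg⟩ := List.append_of_mem hy
      have hg1 : g₁.length < δ := by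
        have h1 : ((l₂ ++ l₁).take δ).length ≤ δ := by
          rw [List.length_take]
          omega
        rw [hg] at h1
        simp only [List.length_append, List.length_cons] at h1
        omega
      have hg2 : l₂ ++ l₁ = g₁ ++ y :: (g₂ ++ (l₂ ++ l₁).drop δ) := by
        have h1 := (List.take_append_drop δ (l₂ ++ l₁)).symm
        rw [hg] at h1
        simpa using h1
      have hO4 : IsCyc G (x :: (g₁ ++ y :: (g₂ ++ (l₂ ++ l₁).drop δ))) := by
        rw [← hg2]
        simpa using hO2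
      have hmem : ∀ v, v ∈ x :: (g₁ ++ y :: (g₂ ++ (l₂ ++ l₁).drop δ)) ↔ v ∈ o := by
        intro v
        rw [← hg2, ho]
        simp only [List.mem_cons, List.mem_append]
        tauto
      have hlen4 : (x :: (g₁ ++ y :: (g₂ ++ (l₂ ++ l₁).drop δ))).length = o.length := by
        rw [← hg2]
        simp only [List.length_cons]
        omega
      have hbad : ∀ w, Bad G S o m w →
          Bad G S (x :: (g₁ ++ y :: (g₂ ++ (l₂ ++ l₁).drop δ))) m w := by
        rintro w ⟨l, l', h1, h2, h3, h4, h5, h6⟩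
        exact ⟨l, l', h1, h2, h3, fun v hv => ⟨(h4 v hv).1, fun h => (h4 v hv).2 ((hmem v).mp h)⟩,
          fun v hv => ⟨(h5 v hv).1, fun h => (h5 v hv).2 ((hmem v).mp h)⟩, h6⟩
      have hsp := spacing hO4 (fun v hv => hoS v ((hmem v).mp hv)) hS
        (fun q hq hqS => by rw [hlen4]; exact hmax q hq hqS) (hbad x hbx) (hbad y hby)
      rw [hlen4] at hsp
      -- the arms at `x` are short
      obtain ⟨u, hu, huS, hu2⟩ := hbx.one
      have h7 := arm_le hO hoS hS hx hu huS (cyc_le hO hoS hS)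
      rcases hsp with h | h
      · omega
      · omega
  · push Not at hb
    exact ⟨o, hO, rfl, fun v => Iff.rfl, fun y hy => hb y (List.mem_of_mem_take hy)⟩

/-- a path meeting the cycle only in an arc, at least twice -/
theorem arc2 {S : Finset V} {X₁ Y X₃ M Q₁ Q' Q₂ : List V} {x y : V} {N : ℕ}
    (hO : IsCyc G ((X₁ ++ x :: (Y ++ y :: X₃)) ++ M))
    (hoS : ∀ v ∈ (X₁ ++ x :: (Y ++ y :: X₃)) ++ M, v ∈ S) (hS : Det G S N)
    (hQ : IsP G (Q₁ ++ x :: (Q' ++ y :: Q₂)))
    (hQS : ∀ v ∈ Q₁ ++ x :: (Q' ++ y :: Q₂), v ∈ S ∧ v ∉ M ∧ v ∉ X₁ ∧ v ∉ X₃) :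
    2 * (Q₁ ++ x :: (Q' ++ y :: Q₂)).length + 2 + 3 * M.length ≤ 3 * N := by
  set W := X₃ ++ M ++ X₁ with hW
  have hWS : ∀ v ∈ W, v ∈ S := by
    intro v hv
    apply hoS
    rw [hW] at hv
    simp only [List.mem_append, List.mem_cons] at hv ⊢
    tauto
  have hWQ : ∀ v ∈ Q₁ ++ x :: (Q' ++ y :: Q₂), v ∉ W := by
    intro v hv hvW
    obtain ⟨_, h1, h2, h3⟩ := hQS v hv
    rw [hW] at hvW
    simp only [List.mem_append] at hvW
    tauto
  -- the path `y W x`
  have hyWx : IsP G (y :: (W ++ [x])) := by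
    have he : (X₁ ++ x :: (Y ++ y :: X₃)) ++ M = (X₁ ++ x :: Y) ++ y :: (X₃ ++ M) := by simp
    rw [he] at hO
    have h1 := rot_start hO rfl
    have h2 : y :: (X₃ ++ M ++ (X₁ ++ x :: Y)) = (y :: (W ++ [x])) ++ Y := by
      rw [hW]; simp
    rw [h2] at h1
    exact h1.left
  have hyW : IsP G (y :: W) := by
    have h1 : y :: (W ++ [x]) = (y :: W) ++ [x] := rfl
    rw [h1] at hyWx
    exact hyWx.left
  have hWx : IsP G (W ++ [x]) := by
    have h1 : y :: (W ++ [x]) = [y] ++ (W ++ [x]) := rfl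
    rw [h1] at hyWx
    exact hyWx.right
  have hxWy : IsP G ((x :: W.reverse) ++ [y]) := by
    have h1 := hyWx.reverse
    have h2 : (y :: (W ++ [x])).reverse = (x :: W.reverse) ++ [y] := by simp
    rw [h2] at h1
    exact h1
  have hsx := isP_split.mp hQ
  have hQy : Q₁ ++ x :: (Q' ++ y :: Q₂) = (Q₁ ++ x :: Q') ++ y :: Q₂ := by simp
  have hsy := isP_split.mp (hQy ▸ hQ)
  have hmemQ₁ : ∀ v ∈ Q₁, v ∈ Q₁ ++ x :: (Q' ++ y :: Q₂) := fun v hv => List.mem_append_left _ hv
  have hmemQ' : ∀ v ∈ Q₁ ++ x :: Q', v ∈ Q₁ ++ x :: (Q' ++ y :: Q₂) := fun v hv => by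
    simp only [List.mem_append, List.mem_cons] at hv ⊢
    tauto
  have hmemQ2 : ∀ v ∈ Q' ++ y :: Q₂, v ∈ Q₁ ++ x :: (Q' ++ y :: Q₂) := fun v hv => by
    simp only [List.mem_append, List.mem_cons] at hv ⊢
    tauto
  have hmemQ₂ : ∀ v ∈ Q₂, v ∈ Q₁ ++ x :: (Q' ++ y :: Q₂) := fun v hv => by
    simp only [List.mem_append, List.mem_cons]
    tauto
  have hyQ : y ∈ Q₁ ++ x :: (Q' ++ y :: Q₂) := by simp
  have hxQ : x ∈ Q₁ ++ x :: (Q' ++ y :: Q₂) := by simp
  -- first path
  have hP1 : IsP G ((Q₁ ++ x :: Q') ++ y :: W) := glue hsy.1 hyW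
    (fun v hv hv2 => hWQ v (hmemQ' v hv) hv2)
  have h1 := hS _ hP1 (by
    intro v hv
    rcases List.mem_append.mp hv with h | h
    · exact (hQS v (hmemQ' v h)).1
    · rcases List.mem_cons.mp h with rfl | h
      · exact (hQS v hyQ).1
      · exact hWS v h)
  -- second path
  have hP2 : IsP G (W ++ x :: (Q' ++ y :: Q₂)) := glue hWx hsx.2.1
    (fun v hv hv2 => hWQ v (hmemQ2 v hv2) hv)
  have h2 := hS _ hP2 (by
    intro v hv
    rcases List.mem_append.mp hv with h | h
    · exact hWS v h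
    · rcases List.mem_cons.mp h with rfl | h
      · exact (hQS v hxQ).1
      · exact (hQS v (hmemQ2 v h)).1)
  -- third path
  have hP3 : IsP G (Q₁ ++ x :: (W.reverse ++ y :: Q₂)) := by
    refine glue hsx.1 ?_ ?_
    · have h4 : IsP G ((x :: W.reverse) ++ y :: Q₂) := by
        refine glue hxWy hsy.2.1 ?_
        intro v hv hv2
        rcases List.mem_cons.mp hv with rfl | hv
        · exact hsy.2.2 (by simp) hv2
        · exact hWQ v (hmemQ₂ v hv2) (List.mem_reverse.mp hv)
      exact h4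
    · intro v hv hv2
      rcases List.mem_append.mp hv2 with h | h
      · exact hWQ v (hmemQ₁ v hv) (List.mem_reverse.mp h)
      · exact hsx.2.2 hv (List.mem_append_right _ h)
  have h3 := hS _ hP3 (by
    intro v hv
    rcases List.mem_append.mp hv with h | h
    · exact (hQS v (hmemQ₁ v h)).1
    · rcases List.mem_cons.mp h with rfl | h
      · exact (hQS v hxQ).1
      · rcases List.mem_append.mp h with h | h
        · exact hWS v (List.mem_reverse.mp h)
        · rcases List.mem_cons.mp h with rfl | h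
          · exact (hQS v hyQ).1
          · exact (hQS v (hmemQ₂ v h)).1)
  have hWlen : W.length = X₃.length + M.length + X₁.length := by
    rw [hW]
    simp only [List.length_append]
  simp only [List.length_append, List.length_cons, List.length_reverse] at h1 h2 h3 ⊢
  omega

/-- last element of a list with a given property -/
theorem exists_last (p : V → Prop) (l : List V) (h : ∃ x ∈ l, p x) :
    ∃ l₁ x l₂, l = l₁ ++ x :: l₂ ∧ p x ∧ ∀ y ∈ l₂, ¬ p y := by
  obtain ⟨l₁, x, l₂, he, hx, hl⟩ := exists_first p l.reverse (by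
    obtain ⟨x, hx, hp⟩ := h
    exact ⟨x, List.mem_reverse.mpr hx, hp⟩)
  refine ⟨l₂.reverse, x, l₁.reverse, ?_, hx, fun y hy => hl y (List.mem_reverse.mp hy)⟩
  have := congrArg List.reverse he
  simpa using this

/-- a path meeting the cycle only in an arc without bad vertices -/
theorem arc3 {S : Finset V} {X M Q : List V} {N m : ℕ} (hO : IsCyc G (X ++ M))
    (hoS : ∀ v ∈ X ++ M, v ∈ S) (hS : Det G S N) (hQ : IsP G Q) (hQS : ∀ v ∈ Q, v ∈ S ∧ v ∉ M)
    (hx : ∃ x ∈ X, x ∈ Q) (hgood : ∀ y ∈ X, ¬ Bad G S (X ++ M) m y) :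
    Q.length ≤ m ∨ 2 * Q.length + 2 + 3 * M.length ≤ 3 * N := by
  obtain ⟨X₁, x, X₂, rfl, hxQ, hX1⟩ := exists_first (fun u => u ∈ Q) X hx
  by_cases hy : ∃ y ∈ X₂, y ∈ Q
  · right
    obtain ⟨Y, y, X₃, rfl, hyQ, hX3⟩ := exists_last (fun u => u ∈ Q) X₂ hy
    have hxy : x ≠ y := by
      rintro rfl
      have h1 := hO.1
      have h2 : (X₁ ++ x :: (Y ++ x :: X₃)) ++ M = X₁ ++ x :: (Y ++ x :: (X₃ ++ M)) := by simp
      rw [h2] at h1
      have h3 := (List.nodup_append.mp h1).2.1
      rw [List.nodup_cons] at h3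
      exact h3.1 (by simp)
    have hQ' : ∀ v ∈ Q, v ∈ S ∧ v ∉ M ∧ v ∉ X₁ ∧ v ∉ X₃ := fun v hv =>
      ⟨(hQS v hv).1, (hQS v hv).2, fun h => hX1 v h hv, fun h => hX3 v h hv⟩
    obtain ⟨Q₁, R, rfl⟩ := List.append_of_mem hxQ
    rcases List.mem_append.mp hyQ with h | h
    · obtain ⟨Q₀, Q', rfl⟩ := List.append_of_mem h
      have h1 : (Q₀ ++ y :: Q' ++ x :: R).reverse =
          R.reverse ++ x :: (Q'.reverse ++ y :: Q₀.reverse) := by simp
      have h2 := arc2 (Q₁ := R.reverse) (Q' := Q'.reverse) (Q₂ := Q₀.reverse) hO hoS hS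
        (by rw [← h1]; exact hQ.reverse)
        (by rw [← h1]; exact fun v hv => hQ' v (List.mem_reverse.mp hv))
      rw [← h1, List.length_reverse] at h2
      exact h2
    · rcases List.mem_cons.mp h with h | h
      · exact absurd h.symm hxy
      · obtain ⟨Q', Q₂, rfl⟩ := List.append_of_mem h
        exact arc2 hO hoS hS hQ hQ'
  · left
    push Not at hy
    by_contra hlen
    obtain ⟨Q₁, Q₂, rfl⟩ := List.append_of_mem hxQ
    have hs := isP_split.mp hQ
    have hnx : ∀ v ∈ Q₁ ++ Q₂, v ≠ x := by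
      rintro v hv rfl
      have : (v :: (Q₁ ++ Q₂)).Nodup := (List.perm_middle.nodup_iff).mp hQ.1
      exact (List.nodup_cons.mp this).1 hv
    have hout : ∀ v ∈ Q₁ ++ Q₂, v ∈ S ∧ v ∉ (X₁ ++ x :: X₂) ++ M := by
      intro v hv
      have hvQ : v ∈ Q₁ ++ x :: Q₂ := by
        rcases List.mem_append.mp hv with h | h
        · exact List.mem_append_left _ h
        · exact List.mem_append_right _ (List.mem_cons_of_mem _ h)
      refine ⟨(hQS v hvQ).1, ?_⟩
      intro h
      rcases List.mem_append.mp h with h | h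
      · rcases List.mem_append.mp h with h | h
        · exact hX1 v h hvQ
        · rcases List.mem_cons.mp h with h | h
          · exact hnx v hv h
          · exact hy v h hvQ
      · exact (hQS v hvQ).2 h
    refine hgood x (by simp) ⟨Q₁.reverse, Q₂, ?_, hs.2.1, ?_, ?_, ?_, ?_⟩
    · have := hs.1.reverse
      simpa using this
    · intro v hv hv2
      exact hs.2.2 (List.mem_reverse.mp hv) hv2
    · intro v hv
      exact hout v (List.mem_append_left _ (List.mem_reverse.mp hv))
    · intro v hv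
      exact hout v (List.mem_append_right _ hv)
    · simp only [List.length_append, List.length_cons] at hlen
      rw [List.length_reverse]
      omega

/-- a longest cycle exists -/
theorem exists_longest {S : Finset V} {N : ℕ} (hS : Det G S N)
    (h : ∃ o, IsCyc G o ∧ ∀ v ∈ o, v ∈ S) : ∃ o, IsCyc G o ∧ (∀ v ∈ o, v ∈ S) ∧
      ∀ q, IsCyc G q → (∀ v ∈ q, v ∈ S) → q.length ≤ o.length := by
  classical
  have hp : ∃ n, ∃ o, IsCyc G o ∧ (∀ v ∈ o, v ∈ S) ∧ o.length = n := by
    obtain ⟨o, h1, h2⟩ := h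
    exact ⟨o.length, o, h1, h2, rfl⟩
  obtain ⟨n, hn⟩ := hp
  have hb : n ≤ N := by
    obtain ⟨o, h1, h2, rfl⟩ := hn
    exact cyc_le h1 h2 hS
  obtain ⟨o, h1, h2, h3⟩ := Nat.findGreatest_spec
    (P := fun n => ∃ o, IsCyc G o ∧ (∀ v ∈ o, v ∈ S) ∧ o.length = n) hb hn
  refine ⟨o, h1, h2, ?_⟩
  intro q hq hqS
  rw [h3]
  exact Nat.le_findGreatest (cyc_le hq hqS hS) ⟨q, hq, hqS, rfl⟩

end Pool.Agent.Lib.MP_29e7a7_co.OT
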